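import Pool.Agent.Q163.KM.Mis

/-! Cycles and eventually periodic orbits: the two criteria. -/

set_option autoImplicit false

namespace Pool.Agent.Q163.KM

open Finset Filter Topology Pool.Agent.Q37.BV Pool.Agent.Q37.TD Pool.Agent.H499R2.CO

/-- eventually periodic -/
def EP (k n : ℤ) : Prop := ∃ m p : ℕ, 1 ≤ p ∧ (Tz k)^[m + p] n = (Tz k)^[m] n

/-- periodic -/
def Per (k c : ℤ) : Prop := ∃ p : ℕ, 1 ≤ p ∧ (Tz k)^[p] c = c

/-- the orbit -/
def Orb (k c : ℤ) : Set ℤ := {y | ∃ j : ℕ, (Tz k)^[j] c = y}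

/-- the cycles -/
def Cyc (k : ℤ) : Set (Set ℤ) := {C | ∃ c, Per k c ∧ C = Orb k c}

theorem EP_inv (k x : ℤ) : EP k x ↔ EP k (Tz k x) := by
  constructor
  · rintro ⟨m, p, hp, h⟩
    refine ⟨m, p, hp, ?_⟩
    rw [← Function.iterate_succ_apply, ← Function.iterate_succ_apply,
      Function.iterate_succ_apply', Function.iterate_succ_apply', h]
  · rintro ⟨m, p, hp, h⟩
    refine ⟨m + 1, p, hp, ?_⟩
    rw [← Function.iterate_succ_apply, ← Function.iterate_succ_apply] at h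
    rw [show m + 1 + p = (m + p).succ by omega]
    exact h

theorem Per.mul {k c : ℤ} {p : ℕ} (h : (Tz k)^[p] c = c) (n : ℕ) : (Tz k)^[p * n] c = c := by
  induction n with
  | zero => simp
  | succ n ih => rw [Nat.mul_succ, Function.iterate_add_apply, h, ih]

theorem Per.back {k c y : ℤ} (hc : Per k c) (hy : y ∈ Orb k c) : c ∈ Orb k y := by
  obtain ⟨p, hp, h⟩ := hc
  obtain ⟨j, rfl⟩ := hy
  refine ⟨p * j - j, ?_⟩
  rw [← Function.iterate_add_apply]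
  have h1 : j ≤ p * j := Nat.le_mul_of_pos_left j hp
  rw [show p * j - j + j = p * j by omega]
  exact Per.mul h j

theorem Per.fwd {k c y : ℤ} (hc : Per k c) (hy : y ∈ Orb k c) : Per k y := by
  obtain ⟨p, hp, h⟩ := hc
  obtain ⟨j, rfl⟩ := hy
  refine ⟨p, hp, ?_⟩
  rw [← Function.iterate_add_apply, add_comm, Function.iterate_add_apply, h]

theorem Orb_sub {k c y : ℤ} (hy : y ∈ Orb k c) : Orb k y ⊆ Orb k c := by
  obtain ⟨j, rfl⟩ := hy
  rintro z ⟨i, rfl⟩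
  exact ⟨i + j, by rw [Function.iterate_add_apply]⟩

theorem Per.orb_eq {k c y : ℤ} (hc : Per k c) (hy : y ∈ Orb k c) : Orb k y = Orb k c :=
  Set.Subset.antisymm (Orb_sub hy) (Orb_sub (hc.back hy))

theorem Tz_zero (k : ℤ) : Tz k 0 = 0 := by unfold Tz; simp

theorem iter_zero (k : ℤ) (j : ℕ) : (Tz k)^[j] 0 = 0 := by
  induction j with
  | zero => rfl
  | succ j ih => rw [Function.iterate_succ_apply, Tz_zero, ih]

theorem odd_next {k z : ℤ} (hk : k % 6 = 1 ∨ k % 6 = 5) (hz : z % 2 = 1) : ¬ (3 : ℤ) ∣ Tz k z := by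
  unfold Tz
  rw [if_neg (by omega)]
  omega

/-- a nonzero member prime to `3` on an orbit which avoids zero -/
theorem exists_good {k x : ℤ} (hk : k % 6 = 1 ∨ k % 6 = 5) (hx : ∀ j : ℕ, (Tz k)^[j] x ≠ 0) :
    ∃ y ∈ Orb k x, ¬ (3 : ℤ) ∣ y ∧ y ≠ 0 := by
  obtain ⟨j, hj⟩ := Pool.Agent.H668.SM.exists_odd hx
  have hj' : (Tz k)^[j] x % 2 = 1 := hj
  have h3 := odd_next hk hj'
  refine ⟨Tz k ((Tz k)^[j] x), ⟨j + 1, by rw [Function.iterate_succ_apply']⟩, h3, ?_⟩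
  intro h0
  exact h3 (by rw [h0]; exact dvd_zero _)

theorem sign_of {y : ℤ} (hy : y ≠ 0) : ∃ s : ℤ, (s = 1 ∨ s = -1) ∧ 0 < s * y := by
  rcases lt_or_gt_of_ne hy with h | h
  · exact ⟨-1, Or.inr rfl, by omega⟩
  · exact ⟨1, Or.inl rfl, by omega⟩

/-- many cycles with the same sign and residue class -/
theorem many_cycles {k : ℤ} (hk : k % 6 = 1 ∨ k % 6 = 5) (hinf : ¬ (Cyc k).Finite) (M : ℕ) :
    ∃ s : ℤ, (s = 1 ∨ s = -1) ∧ ∃ b : ℤ, ∃ E : Finset ℤ, #E = M + 1 ∧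
      (∀ e ∈ E, Per k e ∧ 0 < s * e ∧ ¬ (3 : ℤ) ∣ e ∧ b ≡ s * e [ZMOD k]) ∧
      ∀ e ∈ E, ∀ e' ∈ E, Orb k e = Orb k e' → e = e' := by
  classical
  have hk0 : k ≠ 0 := by rintro rfl; norm_num at hk
  have hinf' : (Cyc k \ {Orb k 0}).Infinite := by
    have : (Cyc k).Infinite := hinf
    exact this.sdiff (Set.finite_singleton _)
  have : Infinite (↥(Cyc k \ {Orb k 0})) := hinf'.to_subtype
  have h1 : ∀ C : ↥(Cyc k \ {Orb k 0}), ∃ e : ℤ, ∃ s : ℤ, (s = 1 ∨ s = -1) ∧ Per k e ∧ 0 < s * e ∧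
      ¬ (3 : ℤ) ∣ e ∧ Orb k e = C.1 := by
    rintro ⟨C, ⟨c, hc, rfl⟩, hne⟩
    have hz : ∀ j : ℕ, (Tz k)^[j] c ≠ 0 := by
      intro j hj
      apply hne
      rw [Set.mem_singleton_iff]
      exact (hc.orb_eq ⟨j, hj⟩).symm
    obtain ⟨y, hy, h3, hy0⟩ := exists_good hk hz
    obtain ⟨s, hs, hsy⟩ := sign_of hy0
    exact ⟨y, s, hs, hc.fwd hy, hsy, h3, hc.orb_eq hy⟩
  choose e s hs hper hpos h3 horb using h1
  let f : ↥(Cyc k \ {Orb k 0}) → Bool × Fin k.natAbs := fun C =>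
    (decide (s C = 1), ⟨(s C * e C % k).natAbs, by
      have h2 := Int.emod_nonneg (s C * e C) hk0
      have h4 := Int.emod_lt_abs (s C * e C) hk0
      have h5 : |k| = (k.natAbs : ℤ) := (Int.natCast_natAbs k).symm
      omega⟩)
  obtain ⟨y, hy⟩ := Finite.exists_infinite_fiber f
  have := hy
  obtain ⟨A, hA⟩ := Infinite.exists_subset_card_eq (↥(f ⁻¹' {y})) (M + 1)
  have hAne : A.Nonempty := card_pos.1 (by omega)
  obtain ⟨C₀, hC₀⟩ := hAne
  have hsame : ∀ C ∈ A, s C.1 = s C₀.1 ∧ s C.1 * e C.1 % k = s C₀.1 * e C₀.1 % k := by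
    intro C _
    have g1 : f C.1 = y := C.2
    have g2 : f C₀.1 = y := C₀.2
    have g3 : f C.1 = f C₀.1 := g1.trans g2.symm
    have g4 := congrArg Prod.fst g3
    have g5 := congrArg (fun t => (Prod.snd t).1) g3
    simp only [f] at g4 g5
    rw [decide_eq_decide] at g4
    constructor
    · rcases hs C.1 with h | h <;> rcases hs C₀.1 with h' | h' <;> rw [h, h'] <;> rw [h, h'] at g4 <;> simp at g4
    · have h2 := Int.emod_nonneg (s C.1 * e C.1) hk0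
      have h4 := Int.emod_nonneg (s C₀.1 * e C₀.1) hk0
      omega
  refine ⟨s C₀.1, hs _, s C₀.1 * e C₀.1, A.image (fun C => e C.1), ?_, ?_, ?_⟩
  · rw [card_image_of_injective, hA]
    intro C C' h
    have h5 : Orb k (e C.1) = Orb k (e C'.1) := by simp only at h; rw [h]
    rw [horb, horb] at h5
    exact Subtype.ext (Subtype.ext h5)
  · intro x hx
    rw [mem_image] at hx
    obtain ⟨C, hC, rfl⟩ := hx
    obtain ⟨h5, h6⟩ := hsame C hC
    refine ⟨hper _, ?_, h3 _, ?_⟩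
    · rw [← h5]; exact hpos _
    · have h7 : s C₀.1 * e C.1 = s C.1 * e C.1 := by rw [h5]
      rw [h7]
      exact h6.symm
  · intro x hx x' hx' h
    rw [mem_image] at hx hx'
    obtain ⟨C, hC, rfl⟩ := hx
    obtain ⟨C', hC', rfl⟩ := hx'
    rw [horb, horb] at h
    rw [Subtype.ext h]

/-- the pairs above the class of `b` modulo `k` -/
def Above (k b : ℤ) (Q : ℕ) : Set (ℕ × ℕ) :=
  {p | Q ≤ p.1 ∧ p.1 < 2 * Q ∧ p.2 < p.1 ∧ k ∣ (p.1 : ℤ) ∧ (p.2 : ℤ) ≡ b [ZMOD k]}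

theorem above_fin (k b : ℤ) (Q : ℕ) : (Above k b Q).Finite := by
  apply Set.Finite.subset (Finset.finite_toSet (range (2 * Q) ×ˢ range (2 * Q)))
  rintro ⟨q, a⟩ ⟨_, h2, h3, _⟩
  rw [mem_coe, mem_product, mem_range, mem_range]
  simp only at *
  omega

theorem above_ge {k : ℤ} (hk : k ≠ 0) (b : ℤ) (Q₀ : ℕ) : ∃ Q : ℕ, Q₀ ≤ Q ∧
    1 / (k.natAbs : ℝ) ^ 2 * Q ^ 2 ≤ ((Above k b Q).ncard : ℝ) := by
  classical
  set D := k.natAbs with hD
  have hD1 : 1 ≤ D := Int.natAbs_pos.2 hk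
  have hD0 : (0 : ℝ) < D := by exact_mod_cast hD1
  refine ⟨D * Q₀, Nat.le_mul_of_pos_left Q₀ hD1, ?_⟩
  have hb0 := Int.emod_nonneg b hk
  have hb1 := Int.emod_lt_abs b hk
  have habs : |k| = (D : ℤ) := (Int.natCast_natAbs k).symm
  rw [habs] at hb1
  set r : ℕ := (b % k).toNat with hr
  have hrz : (r : ℤ) = b % k := Int.toNat_of_nonneg hb0
  have hrD : r < D := by omega
  have hsub : (((Ico Q₀ (2 * Q₀)) ×ˢ range Q₀).image (fun p : ℕ × ℕ => (D * p.1, r + D * p.2)) : Set (ℕ × ℕ)) ⊆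
      Above k b (D * Q₀) := by
    rintro ⟨q, a⟩ h
    rw [mem_coe, mem_image] at h
    obtain ⟨⟨u, v⟩, huv, h⟩ := h
    rw [mem_product, mem_Ico, mem_range] at huv
    obtain ⟨⟨h1, h2⟩, h3⟩ := huv
    simp only [Prod.mk.injEq] at h h1 h2 h3
    obtain ⟨rfl, rfl⟩ := h
    have g1 : D * Q₀ ≤ D * u := Nat.mul_le_mul_left D h1
    have g2 : D * (u + 1) ≤ D * (2 * Q₀) := Nat.mul_le_mul_left D (by omega)
    have g3 : D * (u + 1) = D * u + D := by ring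
    have g4 : D * (2 * Q₀) = 2 * (D * Q₀) := by ring
    have g5 : D * (v + 1) ≤ D * u := Nat.mul_le_mul_left D (by omega)
    have g6 : D * (v + 1) = D * v + D := by ring
    refine ⟨g1, by simp only; omega, by simp only; omega, ?_, ?_⟩
    · simp only
      rw [← Int.natAbs_dvd, ← hD]
      exact_mod_cast dvd_mul_right D u
    · simp only
      have h7 : ((r + D * v : ℕ) : ℤ) = b % k + D * v := by push_cast; rw [hrz]
      rw [h7]
      have h8 : k ∣ (D : ℤ) * v := by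
        rw [← Int.natAbs_dvd, ← hD]
        exact dvd_mul_right _ _
      have h9 : b % k + D * v ≡ b % k + 0 [ZMOD k] :=
        Int.ModEq.add_left _ ((Int.modEq_zero_iff_dvd).2 h8)
      rw [add_zero] at h9
      exact h9.trans (Int.mod_modEq b k)
  have h1 := Set.ncard_le_ncard hsub (above_fin k b _)
  rw [Set.ncard_coe_finset, card_image_of_injective, card_product, Nat.card_Ico, card_range] at h1
  · have h2 : ((2 * Q₀ - Q₀) * Q₀ : ℕ) = Q₀ ^ 2 := by rw [show 2 * Q₀ - Q₀ = Q₀ by omega]; ring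
    rw [h2] at h1
    have h3 : ((Q₀ ^ 2 : ℕ) : ℝ) ≤ ((Above k b (D * Q₀)).ncard : ℝ) := by exact_mod_cast h1
    refine le_trans (le_of_eq ?_) h3
    push_cast
    field_simp
  · rintro ⟨u, v⟩ ⟨u', v'⟩ h
    simp only [Prod.mk.injEq] at h
    obtain ⟨h4, h5⟩ := h
    have h6 : D * v = D * v' := by omega
    rw [Nat.eq_of_mul_eq_mul_left hD1 h4, Nat.eq_of_mul_eq_mul_left hD1 h6]

theorem gcd_of_dvd {k : ℤ} {q : ℕ} (h : k ∣ (q : ℤ)) : q.gcd k.natAbs = k.natAbs :=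
  Nat.gcd_eq_right (Int.natAbs_dvd_natAbs.2 h)

theorem modEq_natAbs {k a b : ℤ} (h : a ≡ b [ZMOD k]) : a ≡ b [ZMOD (k.natAbs : ℤ)] := by
  rw [Int.modEq_iff_dvd] at h ⊢
  exact Int.natAbs_dvd.2 h

theorem crit1 {k : ℤ} (hk : k % 6 = 1 ∨ k % 6 = 5) :
    (∀ x, EP k x) ↔ ∀ s : ℤ, s = 1 ∨ s = -1 → ∀ b : ℤ, ∃ c : ℝ, 0 < c ∧ ∀ K Q₀ : ℕ, ∃ Q : ℕ, Q₀ ≤ Q ∧
      c * Q ^ 2 ≤ (({p | p ∈ Above k b Q ∧ ∀ x : ℤ, 0 < s * x → s * x ≤ ((K * Q : ℕ) : ℤ) → s * x ≡ p.2 [ZMOD p.1] →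
        EP k x} : Set (ℕ × ℕ)).ncard : ℝ) := by
  classical
  have hk0 : k ≠ 0 := by rintro rfl; norm_num at hk
  constructor
  · intro h s _ b
    refine ⟨1 / (k.natAbs : ℝ) ^ 2, by
      have : (0 : ℝ) < k.natAbs := by exact_mod_cast Int.natAbs_pos.2 hk0
      positivity, fun K Q₀ => ?_⟩
    obtain ⟨Q, hQ, h1⟩ := above_ge hk0 b Q₀
    refine ⟨Q, hQ, h1.trans (le_of_eq ?_)⟩
    congr 2
    ext p
    exact ⟨fun hp => ⟨hp, fun x _ _ _ => h x⟩, fun hp => hp.1⟩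
  · intro h
    by_contra hne
    push Not at hne
    obtain ⟨x, hx⟩ := hne
    have hz : ∀ j : ℕ, (Tz k)^[j] x ≠ 0 := by
      intro j hj
      apply hx
      refine ⟨j, 1, le_rfl, ?_⟩
      rw [add_comm, Function.iterate_add_apply, hj, iter_zero]
    obtain ⟨y, ⟨j, hy⟩, h3, hy0⟩ := exists_good hk hz
    obtain ⟨s, hs, hsy⟩ := sign_of hy0
    have hS : InvD k {x | ¬ EP k x} := fun x => not_congr (EP_inv k x)
    have hyS : y ∈ {x | ¬ EP k x} := by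
      rw [← hy]
      exact (hS.iter j x).1 hx
    obtain ⟨c, hc, h1⟩ := h s hs (s * y)
    obtain ⟨K, Q₀, h2⟩ := miss_all hk hS hs (show 0 < c / 2 by positivity)
    obtain ⟨Q, hQ, h4⟩ := h1 K (max Q₀ 1)
    have h5 := h2 Q ((le_max_left _ _).trans hQ)
    have hQ1 : 1 ≤ Q := (le_max_right _ _).trans hQ
    have hQ0 : (0 : ℝ) < Q := by exact_mod_cast hQ1
    have hsub : ({p | p ∈ Above k (s * y) Q ∧ ∀ x : ℤ, 0 < s * x → s * x ≤ ((K * Q : ℕ) : ℤ) →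
        s * x ≡ p.2 [ZMOD p.1] → EP k x} : Set (ℕ × ℕ)) ⊆ Miss' {x | ¬ EP k x} s k (K * Q) Q := by
      rintro ⟨q, a⟩ ⟨⟨g1, g2, g3, g4, g5⟩, g6⟩
      refine ⟨g1, g2, g3, ⟨y, hyS, hsy, h3, 0, 0, ?_⟩, ?_⟩
      · simp only at g4 g5 ⊢
        rw [gcd_of_dvd g4, pow_zero, pow_zero, one_mul, one_mul]
        exact modEq_natAbs g5
      · intro x hx h7 h8 h9
        exact hx (g6 x h7 h8 h9)
    have h6 : (({p | p ∈ Above k (s * y) Q ∧ ∀ x : ℤ, 0 < s * x → s * x ≤ ((K * Q : ℕ) : ℤ) →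
        s * x ≡ p.2 [ZMOD p.1] → EP k x} : Set (ℕ × ℕ)).ncard : ℝ) ≤
        ((Miss' {x | ¬ EP k x} s k (K * Q) Q).ncard : ℝ) := by
      exact_mod_cast Set.ncard_le_ncard hsub (miss_fin _ _ _ _ _)
    have : 0 < c * (Q : ℝ) ^ 2 := by positivity
    linarith

theorem basin_inv {k c : ℤ} (hc : Per k c) : InvD k {x | c ∈ Orb k x} := by
  intro x
  constructor
  · rintro ⟨j, hj⟩
    rcases j with _ | j
    · obtain ⟨p, hp, hpc⟩ := hc
      have hx : x = c := hj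
      refine ⟨p - 1, ?_⟩
      rw [← Function.iterate_succ_apply, show (p - 1).succ = p by omega, hx, hpc]
    · exact ⟨j, by rwa [Function.iterate_succ_apply] at hj⟩
  · rintro ⟨j, hj⟩
    exact ⟨j + 1, by rwa [Function.iterate_succ_apply]⟩

theorem EP_reach {k x : ℤ} (h : EP k x) : ∃ c ∈ Orb k x, Per k c := by
  obtain ⟨m, p, hp, h⟩ := h
  refine ⟨(Tz k)^[m] x, ⟨m, rfl⟩, p, hp, ?_⟩
  rw [← Function.iterate_add_apply, add_comm, h]

theorem crit2 {k : ℤ} (hk : k % 6 = 1 ∨ k % 6 = 5) :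
    (Cyc k).Finite ↔ ∃ M : ℕ, ∀ s : ℤ, s = 1 ∨ s = -1 → ∀ b : ℤ, ∃ c : ℝ, 0 < c ∧ ∀ K Q₀ : ℕ, ∃ Q : ℕ, Q₀ ≤ Q ∧
      c * Q ^ 2 ≤ (({p | p ∈ Above k b Q ∧ ∃ F : Finset ℤ, #F ≤ M ∧ (∀ f ∈ F, Per k f) ∧
        ∀ x : ℤ, 0 < s * x → s * x ≤ ((K * Q : ℕ) : ℤ) → s * x ≡ p.2 [ZMOD p.1] → EP k x →
          ∃ f ∈ F, f ∈ Orb k x} : Set (ℕ × ℕ)).ncard : ℝ) := by
  classical
  have hk0 : k ≠ 0 := by rintro rfl; norm_num at hk
  constructor
  · intro hfin
    have h1 : ∀ C : Set ℤ, ∃ c : ℤ, C ∈ Cyc k → Per k c ∧ C = Orb k c := by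
      intro C
      by_cases h : C ∈ Cyc k
      · obtain ⟨c, hc⟩ := h
        exact ⟨c, fun _ => hc⟩
      · exact ⟨0, fun h' => absurd h' h⟩
    choose r hr using h1
    refine ⟨#(hfin.toFinset.image r), fun s _ b => ⟨1 / (k.natAbs : ℝ) ^ 2, by
      have : (0 : ℝ) < k.natAbs := by exact_mod_cast Int.natAbs_pos.2 hk0
      positivity, fun K Q₀ => ?_⟩⟩
    obtain ⟨Q, hQ, h2⟩ := above_ge hk0 b Q₀
    refine ⟨Q, hQ, h2.trans (le_of_eq ?_)⟩
    congr 2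
    ext p
    refine ⟨fun hp => ⟨hp, hfin.toFinset.image r, le_rfl, ?_, ?_⟩, fun hp => hp.1⟩
    · intro f hf
      rw [mem_image] at hf
      obtain ⟨C, hC, rfl⟩ := hf
      exact (hr C (hfin.mem_toFinset.1 hC)).1
    · intro x _ _ _ hx
      obtain ⟨c, hc, hper⟩ := EP_reach hx
      have hC : Orb k c ∈ Cyc k := ⟨c, hper, rfl⟩
      obtain ⟨h3, h4⟩ := hr _ hC
      refine ⟨r (Orb k c), mem_image_of_mem _ (hfin.mem_toFinset.2 hC), ?_⟩
      apply Orb_sub hc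
      have h5 : r (Orb k c) ∈ Orb k (r (Orb k c)) := ⟨0, rfl⟩
      exact (Set.ext_iff.1 h4 _).2 h5
  · rintro ⟨M, h⟩
    by_contra hinf
    obtain ⟨s, hs, b, E, hE, hE1, hE2⟩ := many_cycles hk hinf M
    obtain ⟨c, hc, h1⟩ := h s hs b
    have h2 : ∀ e : ℤ, ∃ K Q₀ : ℕ, e ∈ E → ∀ Q : ℕ, Q₀ ≤ Q →
        ((Miss' {x | e ∈ Orb k x} s k (K * Q) Q).ncard : ℝ) ≤ c / (2 * (M + 1)) * Q ^ 2 := by
      intro e
      by_cases he : e ∈ E
      · obtain ⟨K, Q₀, h3⟩ := miss_all hk (basin_inv (hE1 e he).1) hs (show 0 < c / (2 * ((M : ℝ) + 1)) by positivity)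
        exact ⟨K, Q₀, fun _ => h3⟩
      · exact ⟨0, 0, fun h' => absurd h' he⟩
    choose K Q₀ h3 using h2
    obtain ⟨Q, hQ, h4⟩ := h1 (E.sup K) (max (E.sup Q₀) 1)
    have hQ1 : 1 ≤ Q := (le_max_right _ _).trans hQ
    have hQ0 : (0 : ℝ) < Q := by exact_mod_cast hQ1
    set W : Set (ℕ × ℕ) := {p | p ∈ Above k b Q ∧ ∃ F : Finset ℤ, #F ≤ M ∧ (∀ f ∈ F, Per k f) ∧
        ∀ x : ℤ, 0 < s * x → s * x ≤ ((E.sup K * Q : ℕ) : ℤ) → s * x ≡ p.2 [ZMOD p.1] → EP k x →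
          ∃ f ∈ F, f ∈ Orb k x} with hW
    have hfinW : W.Finite := (above_fin k b Q).subset fun p hp => hp.1
    have hfinM : ∀ e : ℤ, (Miss' {x | e ∈ Orb k x} s k (E.sup K * Q) Q).Finite := fun e => miss_fin _ _ _ _ _
    have hsub : W ⊆ ((E.biUnion fun e => (hfinM e).toFinset : Finset (ℕ × ℕ)) : Set (ℕ × ℕ)) := by
      rintro ⟨q, a⟩ ⟨⟨g1, g2, g3, g4, g5⟩, F, hF, hFp, hF2⟩
      by_contra hcon
      rw [mem_coe, mem_biUnion] at hcon
      push Not at hcon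
      have h5 : ∀ e ∈ E, ∃ f ∈ F, Orb k f = Orb k e := by
        intro e he
        have h6 := hcon e he
        rw [Set.Finite.mem_toFinset] at h6
        by_contra hno
        apply h6
        refine ⟨g1, g2, g3, ⟨e, ⟨0, rfl⟩, (hE1 e he).2.1, (hE1 e he).2.2.1, 0, 0, ?_⟩, ?_⟩
        · simp only at g4 g5 ⊢
          rw [gcd_of_dvd g4, pow_zero, pow_zero, one_mul, one_mul]
          exact modEq_natAbs (g5.trans (hE1 e he).2.2.2)
        · intro x hx h7 h8 h9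
          have hxe : e ∈ Orb k x := hx
          have hEPx : EP k x := by
            obtain ⟨j, hj⟩ := hxe
            obtain ⟨p, hp, hpe⟩ := (hE1 e he).1
            refine ⟨j, p, hp, ?_⟩
            rw [add_comm, Function.iterate_add_apply, hj, hpe]
          obtain ⟨f, hf, hfx⟩ := hF2 x h7 h8 h9 hEPx
          apply hno
          refine ⟨f, hf, ?_⟩
          obtain ⟨i, hi⟩ := hfx
          obtain ⟨j, hj⟩ := hxe
          rcases le_total i j with hij | hij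
          · have : e ∈ Orb k f := ⟨j - i, by
              rw [← hi, ← Function.iterate_add_apply, show j - i + i = j by omega, hj]⟩
            exact ((hFp f hf).orb_eq this).symm
          · have : f ∈ Orb k e := ⟨i - j, by
              rw [← hj, ← Function.iterate_add_apply, show i - j + j = i by omega, hi]⟩
            exact (hE1 e he).1.orb_eq this
      choose! φ hφ hφ2 using h5
      have h6 : #E ≤ #F := by
        apply card_le_card_of_injOn φ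
        · intro e he; exact hφ e he
        · intro e he e' he' hee
          apply hE2 e he e' he'
          rw [← hφ2 e he, ← hφ2 e' he', hee]
      omega
    have h5 : (W.ncard : ℝ) ≤ ∑ e ∈ E, c / (2 * ((M : ℝ) + 1)) * Q ^ 2 := by
      have h6 := Set.ncard_le_ncard hsub (Finset.finite_toSet _)
      rw [Set.ncard_coe_finset] at h6
      have h7 : (#(E.biUnion fun e => (hfinM e).toFinset) : ℝ) ≤ ∑ e ∈ E, (#((hfinM e).toFinset) : ℝ) := by
        exact_mod_cast card_biUnion_le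
      refine le_trans (le_trans (by exact_mod_cast h6) h7) ?_
      apply sum_le_sum
      intro e he
      rw [← Set.ncard_eq_toFinset_card _ (hfinM e)]
      have h8 := h3 e he Q ((Finset.le_sup he).trans ((le_max_left _ _).trans hQ))
      refine le_trans ?_ h8
      have h9 := Set.ncard_le_ncard (miss_mono {x | e ∈ Orb k x} s k (Q := Q)
        (show K e * Q ≤ E.sup K * Q from Nat.mul_le_mul_right Q (Finset.le_sup he))) (miss_fin _ _ _ _ _)
      exact_mod_cast h9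
    rw [sum_const, hE, nsmul_eq_mul] at h5
    have h6 : ((M + 1 : ℕ) : ℝ) * (c / (2 * ((M : ℝ) + 1)) * Q ^ 2) = c / 2 * Q ^ 2 := by
      push_cast
      have : (M : ℝ) + 1 ≠ 0 := by positivity
      field_simp
    rw [h6] at h5
    have : 0 < c * (Q : ℝ) ^ 2 := by positivity
    linarith

end Pool.Agent.Q163.KM
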