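import Pool.Agent.Q163.KM.Split

/-! The level of distribution and the variance, all moduli. -/

set_option autoImplicit false

namespace Pool.Agent.Q163.KM

open Finset Filter Topology Pool.Agent.Q37.BV Pool.Agent.Q37.TD Pool.Agent.H499R2.CO

theorem ceil_le {Q g : ℕ} (hg : 1 ≤ g) (hQ : 1 ≤ Q) : 1 ≤ (Q + g - 1) / g ∧ (Q + g - 1) / g ≤ Q := by
  constructor
  · rw [Nat.le_div_iff_mul_le hg]; omega
  · have h1 : Q + g - 1 < (Q + 1) * g := by
      have : (Q + 1) * g = Q * g + g := by ring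
      have h2 : Q * 1 ≤ Q * g := Nat.mul_le_mul_left Q hg
      omega
    have := (Nat.div_lt_iff_lt_mul hg).2 h1
    omega

theorem level_g {δ : ℝ} (hδ : 0 < δ) (hδ2 : δ < 1 / 2) {ε : ℝ} (hε : 0 < ε) : ∃ N₀ : ℕ, 1 ≤ N₀ ∧
    ∀ d : ℤ, d % 2 = 1 → ∀ S : Set ℤ, InvD d S → ∀ s : ℤ, s = 1 ∨ s = -1 → ∀ N : ℕ, N₀ * d.natAbs ≤ N →
    ∀ Q : ℕ, 1 ≤ Q → (Q : ℝ) ≤ levD δ ((N : ℝ) / d.natAbs) → ∀ a : ℕ → ℤ, ∀ g : ℕ, g ∣ d.natAbs →
      ∑ q ∈ Ico Q (2 * Q) with q.gcd d.natAbs = g, |Dl (FS S s) N q g (a q)| ≤ ε * N := by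
  classical
  obtain ⟨N₁, h1⟩ := level_genB hδ (show 0 < ε / 2 by positivity)
  refine ⟨max N₁ 1, le_max_right _ _, fun d hd S hS s hs N hN Q hQ hQl a g hg => ?_⟩
  set D := d.natAbs with hDdef
  have hD1 : 1 ≤ D := by
    rw [hDdef]
    have : d ≠ 0 := by rintro rfl; norm_num at hd
    have := Int.natAbs_pos.2 this
    omega
  have hDz : (D : ℤ) = |d| := by rw [hDdef]; exact Int.natCast_natAbs d
  have hN1 : N₁ * D ≤ N := (Nat.mul_le_mul_right D (le_max_left _ _)).trans hN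
  have hND : D ≤ N := by
    have := (Nat.mul_le_mul_right D (le_max_right N₁ 1)).trans hN
    rwa [one_mul] at this
  have hD0 : (0 : ℝ) < D := by exact_mod_cast hD1
  have hNDr : (D : ℝ) ≤ N := by exact_mod_cast hND
  set n' := N / D + 1 with hn'
  have hn1 : N₁ ≤ n' := by
    have : N₁ ≤ N / D := (Nat.le_div_iff_mul_le hD1).2 hN1
    omega
  have hMc : ∀ c ∈ range D, (N + c) / D ≤ n' := by
    intro c hc
    rw [mem_range] at hc
    calc (N + c) / D ≤ (N + D) / D := Nat.div_le_div_right (by omega)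
      _ = n' := Nat.add_div_right N hD1
  have hx1 : 1 ≤ (N : ℝ) / D := by rw [le_div_iff₀ hD0]; linarith
  have hxn : (N : ℝ) / D ≤ (n' : ℕ) := by
    rw [hn']
    have := Nat.lt_floor_add_one ((N : ℝ) / D)
    rw [Nat.floor_div_natCast, Nat.floor_natCast] at this
    push_cast
    exact this.le
  have hlev : (Q : ℝ) ≤ lev δ n' := hQl.trans (levD_mono hδ2 hx1 hxn)
  obtain ⟨D', hD'⟩ := hg
  have hg1 : 1 ≤ g := by
    rcases Nat.eq_zero_or_pos g with h | h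
    · rw [h, zero_mul] at hD'; omega
    · exact h
  have hD'1 : 1 ≤ D' := by
    rcases Nat.eq_zero_or_pos D' with h | h
    · rw [h, mul_zero] at hD'; omega
    · exact h
  set Q' := (Q + g - 1) / g with hQ'
  obtain ⟨hQ'1, hQ'2⟩ := ceil_le hg1 hQ
  have hlev' : (Q' : ℝ) ≤ lev δ n' := le_trans (by exact_mod_cast hQ'2) hlev
  have hw : ∀ q : ℕ, ∃ w : ℤ, (g * q).gcd D = g → (q : ℤ) ∣ D' * w - 1 := by
    intro q
    by_cases h : (g * q).gcd D = g
    · have h2 : q.Coprime D' := by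
        rw [hD', Nat.gcd_mul_left] at h
        have : g * q.gcd D' = g * 1 := by omega
        exact Nat.eq_of_mul_eq_mul_left (by omega) this
      obtain ⟨w, hw⟩ := exists_inv h2
      exact ⟨w, fun _ => hw⟩
    · exact ⟨0, fun h2 => absurd h2 h⟩
  choose w hw using hw
  calc ∑ q ∈ Ico Q (2 * Q) with q.gcd D = g, |Dl (FS S s) N q g (a q)|
      ≤ ∑ q' ∈ Ico Q' (2 * Q') with (g * q').gcd D = g, |Dl (FS S s) N (g * q') g (a (g * q'))| :=
        sum_gcd hg1 Q (f := fun q => |Dl (FS S s) N q g (a q)|) (fun q => abs_nonneg _)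
    _ ≤ ∑ q' ∈ Ico Q' (2 * Q') with (g * q').gcd D = g, ∑ c ∈ range D,
          |dF (FD S s D c) ((N + c) / D) q' (w q' * ((a (g * q') + c) / g))| := by
        apply sum_le_sum
        intro q' hq'
        rw [mem_filter, mem_Ico] at hq'
        have h2 := Dl_split hg1 hD'1 (show 1 ≤ q' by omega) S s N (hw q' hq'.2) (a (g * q'))
        rw [← hD'] at h2
        rw [h2]
        refine (abs_sum_le_sum_abs _ _).trans ?_
        exact sum_le_sum_of_subset_of_nonneg (filter_subset _ _) fun _ _ _ => abs_nonneg _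
    _ ≤ ∑ q' ∈ Ico Q' (2 * Q'), ∑ c ∈ range D,
          |dF (FD S s D c) ((N + c) / D) q' (w q' * ((a (g * q') + c) / g))| :=
        sum_le_sum_of_subset_of_nonneg (filter_subset _ _) fun _ _ _ => sum_nonneg fun _ _ => abs_nonneg _
    _ = ∑ c ∈ range D, ∑ q' ∈ Ico Q' (2 * Q'),
          |dF (FD S s D c) ((N + c) / D) q' (w q' * ((a (g * q') + c) / g))| := sum_comm
    _ ≤ ∑ c ∈ range D, ε / 2 * n' := by
        apply sum_le_sum
        intro c hc
        exact h1 (FD S s D c) (FD_win hd hS hs hDz c) n' hn1 Q' hQ'1 hlev' _ (hMc c hc)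
          (fun q' => w q' * ((a (g * q') + c) / g))
    _ = D * (ε / 2 * n') := by rw [sum_const, card_range, nsmul_eq_mul]
    _ ≤ ε * N := by
        have h2 : (D : ℝ) * n' ≤ N + D := by
          have h3 : D * (N / D) ≤ N := Nat.mul_div_le N D
          have h4 : (D : ℝ) * ((N / D : ℕ) : ℝ) ≤ N := by exact_mod_cast h3
          rw [hn']; push_cast; linarith
        have h3 : (D : ℝ) * (ε / 2 * n') = ε / 2 * (D * n') := by ring
        rw [h3]
        have h4 : ε / 2 * (D * n') ≤ ε / 2 * (N + D) := mul_le_mul_of_nonneg_left h2 (by positivity)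
        have h5 : ε / 2 * ((N : ℝ) + D) ≤ ε / 2 * (N + N) := mul_le_mul_of_nonneg_left (by linarith) (by positivity)
        linarith

theorem var_g {ε : ℝ} (hε : 0 < ε) : ∃ N₀ : ℕ, 1 ≤ N₀ ∧ ∀ d : ℤ, d % 2 = 1 →
    ∀ S : Set ℤ, InvD d S → ∀ s : ℤ, s = 1 ∨ s = -1 → ∀ N : ℕ, N₀ * d.natAbs ≤ N → ∀ Q : ℕ, 1 ≤ Q →
    ∀ g : ℕ, g ∣ d.natAbs →
      ∑ q ∈ Ico Q (2 * Q) with q.gcd d.natAbs = g, ∑ a ∈ range q, (Dl (FS S s) N q g ((a : ℕ) : ℤ)) ^ 2 ≤
        ε * N ^ 2 + 288 * Q * d.natAbs * N := by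
  classical
  obtain ⟨N₁, h1⟩ := bdhB (show 0 < ε / 2 by positivity)
  refine ⟨max N₁ 1, le_max_right _ _, fun d hd S hS s hs N hN Q hQ g hg => ?_⟩
  set D := d.natAbs with hDdef
  have hD1 : 1 ≤ D := by
    rw [hDdef]
    have : d ≠ 0 := by rintro rfl; norm_num at hd
    have := Int.natAbs_pos.2 this
    omega
  have hDz : (D : ℤ) = |d| := by rw [hDdef]; exact Int.natCast_natAbs d
  have hN1 : N₁ * D ≤ N := (Nat.mul_le_mul_right D (le_max_left _ _)).trans hN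
  have hND : D ≤ N := by
    have := (Nat.mul_le_mul_right D (le_max_right N₁ 1)).trans hN
    rwa [one_mul] at this
  have hD0 : (0 : ℝ) < D := by exact_mod_cast hD1
  have hNDr : (D : ℝ) ≤ N := by exact_mod_cast hND
  have hN0 : (0 : ℝ) ≤ N := Nat.cast_nonneg _
  have hMge : ∀ c, N₁ ≤ (N + c) / D := by
    intro c
    rw [Nat.le_div_iff_mul_le hD1]
    omega
  have hMle : ∀ c ∈ range D, (((N + c) / D : ℕ) : ℝ) ≤ 2 * N / D := by
    intro c hc
    rw [mem_range] at hc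
    have hcD : (c : ℝ) ≤ D := by exact_mod_cast hc.le
    calc (((N + c) / D : ℕ) : ℝ) ≤ ((N + c : ℕ) : ℝ) / D := Nat.cast_div_le
      _ ≤ 2 * N / D := by
          apply div_le_div_of_nonneg_right _ hD0.le
          push_cast
          linarith
  have hMsum : ∑ c ∈ range D, (((N + c) / D : ℕ) : ℝ) = N := by
    have h2 := split_classes hD1 N (fun _ => (1 : ℝ))
    rw [sum_const, Int.card_Ico] at h2
    have e : (1 + (N : ℤ) - 1).toNat = N := by omega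
    rw [e, nsmul_eq_mul, mul_one] at h2
    rw [h2]
    apply sum_congr rfl
    intro c _
    generalize (N + c) / D = K
    rw [sum_const, Int.card_Ico]
    have e : (1 + (K : ℤ) - 1).toNat = K := by omega
    rw [e, nsmul_eq_mul, mul_one]
  obtain ⟨D', hD'⟩ := hg
  have hg1 : 1 ≤ g := by
    rcases Nat.eq_zero_or_pos g with h | h
    · rw [h, zero_mul] at hD'; omega
    · exact h
  have hD'1 : 1 ≤ D' := by
    rcases Nat.eq_zero_or_pos D' with h | h
    · rw [h, mul_zero] at hD'; omega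
    · exact h
  set Q' := (Q + g - 1) / g with hQ'
  obtain ⟨hQ'1, hQ'2⟩ := ceil_le hg1 hQ
  have hQ'r : (Q' : ℝ) ≤ Q := by exact_mod_cast hQ'2
  have hw : ∀ q : ℕ, ∃ w : ℤ, (g * q).gcd D = g → (q : ℤ) ∣ D' * w - 1 := by
    intro q
    by_cases h : (g * q).gcd D = g
    · have h2 : q.Coprime D' := by
        rw [hD', Nat.gcd_mul_left] at h
        have : g * q.gcd D' = g * 1 := by omega
        exact Nat.eq_of_mul_eq_mul_left (by omega) this
      obtain ⟨w, hw⟩ := exists_inv h2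
      exact ⟨w, fun _ => hw⟩
    · exact ⟨0, fun h2 => absurd h2 h⟩
  choose w hw using hw
  calc ∑ q ∈ Ico Q (2 * Q) with q.gcd D = g, ∑ a ∈ range q, (Dl (FS S s) N q g ((a : ℕ) : ℤ)) ^ 2
      ≤ ∑ q' ∈ Ico Q' (2 * Q') with (g * q').gcd D = g, ∑ a ∈ range (g * q'),
          (Dl (FS S s) N (g * q') g ((a : ℕ) : ℤ)) ^ 2 :=
        sum_gcd hg1 Q (f := fun q => ∑ a ∈ range q, (Dl (FS S s) N q g ((a : ℕ) : ℤ)) ^ 2)
          (fun q => sum_nonneg fun _ _ => sq_nonneg _)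
    _ ≤ ∑ q' ∈ Ico Q' (2 * Q') with (g * q').gcd D = g,
          D * ∑ c ∈ range D, ∑ b ∈ range q', (dF (FD S s D c) ((N + c) / D) q' ((b : ℕ) : ℤ)) ^ 2 := by
        apply sum_le_sum
        intro q' hq'
        rw [mem_filter, mem_Ico] at hq'
        have hq'1 : 1 ≤ q' := by omega
        set X : ℕ → ℤ → ℝ := fun c x => dF (FD S s D c) ((N + c) / D) q' (w q' * x) with hX
        have e1 : ∀ a ∈ range (g * q'), (Dl (FS S s) N (g * q') g ((a : ℕ) : ℤ)) ^ 2 ≤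
            D * ∑ c ∈ range D with (g : ℤ) ∣ ((a : ℕ) : ℤ) + ((c : ℕ) : ℤ),
              (X c ((((a : ℕ) : ℤ) + ((c : ℕ) : ℤ)) / g)) ^ 2 := by
          intro a _
          have h2 := Dl_split hg1 hD'1 hq'1 S s N (hw q' hq'.2) ((a : ℕ) : ℤ)
          rw [← hD'] at h2
          rw [h2]
          refine sq_sum_le_card_mul_sum_sq.trans ?_
          apply mul_le_mul_of_nonneg_right _ (sum_nonneg fun _ _ => sq_nonneg _)
          have h3 := card_filter_le (range D) (fun c => (g : ℤ) ∣ ((a : ℕ) : ℤ) + ((c : ℕ) : ℤ))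
          rw [card_range] at h3
          exact_mod_cast h3
        refine (sum_le_sum e1).trans ?_
        rw [← mul_sum]
        apply mul_le_mul_of_nonneg_left _ hD0.le
        apply le_of_eq
        simp_rw [sum_filter]
        rw [sum_comm]
        apply sum_congr rfl
        intro c _
        rw [← sum_filter]
        have h4 := sum_class hg1 (q' := q') c (fun x => (X c x) ^ 2)
        rw [h4]
        exact perm_sum hq'1 (hw q' hq'.2) ((c + g - 1) / g)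
          (f := fun x => (dF (FD S s D c) ((N + c) / D) q' x) ^ 2) (fun a k => by rw [dF_periodic])
    _ ≤ ∑ q' ∈ Ico Q' (2 * Q'),
          D * ∑ c ∈ range D, ∑ b ∈ range q', (dF (FD S s D c) ((N + c) / D) q' ((b : ℕ) : ℤ)) ^ 2 :=
        sum_le_sum_of_subset_of_nonneg (filter_subset _ _) fun _ _ _ =>
          mul_nonneg hD0.le (sum_nonneg fun _ _ => sum_nonneg fun _ _ => sq_nonneg _)
    _ = D * ∑ c ∈ range D, ∑ q' ∈ Ico Q' (2 * Q'),
          ∑ b ∈ range q', (dF (FD S s D c) ((N + c) / D) q' ((b : ℕ) : ℤ)) ^ 2 := by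
        rw [← mul_sum, sum_comm]
    _ ≤ D * ∑ c ∈ range D, (ε / 2 * (2 * N / D * (((N + c) / D : ℕ) : ℝ)) + 288 * Q * (((N + c) / D : ℕ) : ℝ)) := by
        apply mul_le_mul_of_nonneg_left _ hD0.le
        apply sum_le_sum
        intro c hc
        refine (h1 (FD S s D c) (FD_win hd hS hs hDz c) _ (hMge c) Q' hQ'1).trans ?_
        have h2 : (((N + c) / D : ℕ) : ℝ) ^ 2 ≤ 2 * N / D * (((N + c) / D : ℕ) : ℝ) := by
          rw [sq]
          exact mul_le_mul_of_nonneg_right (hMle c hc) (Nat.cast_nonneg _)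
        have h3 := mul_le_mul_of_nonneg_left h2 (show 0 ≤ ε / 2 by positivity)
        have h4 : 288 * (Q' : ℝ) * (((N + c) / D : ℕ) : ℝ) ≤ 288 * Q * (((N + c) / D : ℕ) : ℝ) :=
          mul_le_mul_of_nonneg_right (by linarith) (Nat.cast_nonneg _)
        linarith
    _ = ε * N ^ 2 + 288 * Q * D * N := by
        rw [sum_add_distrib, ← mul_sum, ← mul_sum, ← mul_sum, hMsum]
        field_simp

/-- the sum over all moduli -/
theorem sum_all_gcd {D : ℕ} (hD : 1 ≤ D) (Q : ℕ) (f : ℕ → ℕ → ℝ) :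
    ∑ q ∈ Ico Q (2 * Q), f q (q.gcd D) =
      ∑ g ∈ D.divisors, ∑ q ∈ Ico Q (2 * Q) with q.gcd D = g, f q g := by
  rw [← sum_fiberwise_of_maps_to (s := Ico Q (2 * Q)) (t := D.divisors) (g := fun q => q.gcd D)]
  · apply sum_congr rfl
    intro g _
    apply sum_congr rfl
    intro q hq
    rw [mem_filter] at hq
    rw [hq.2]
  · intro q _
    rw [Nat.mem_divisors]
    exact ⟨Nat.gcd_dvd_right q D, by omega⟩

theorem level_all {δ : ℝ} (hδ : 0 < δ) (hδ2 : δ < 1 / 2) {ε : ℝ} (hε : 0 < ε) : ∃ N₀ : ℕ, 1 ≤ N₀ ∧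
    ∀ d : ℤ, d % 2 = 1 → ∀ S : Set ℤ, InvD d S → ∀ s : ℤ, s = 1 ∨ s = -1 → ∀ N : ℕ, N₀ * d.natAbs ≤ N →
    ∀ Q : ℕ, 1 ≤ Q → (Q : ℝ) ≤ levD δ ((N : ℝ) / d.natAbs) → ∀ a : ℕ → ℤ,
      ∑ q ∈ Ico Q (2 * Q), |Dl (FS S s) N q (q.gcd d.natAbs) (a q)| ≤ #d.natAbs.divisors * (ε * N) := by
  obtain ⟨N₀, h0, h⟩ := level_g hδ hδ2 hε
  refine ⟨N₀, h0, fun d hd S hS s hs N hN Q hQ hQl a => ?_⟩
  have hD1 : 1 ≤ d.natAbs := by
    have : d ≠ 0 := by rintro rfl; norm_num at hd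
    have := Int.natAbs_pos.2 this
    omega
  rw [sum_all_gcd hD1 Q (fun q g => |Dl (FS S s) N q g (a q)|), ← nsmul_eq_mul, ← sum_const]
  apply sum_le_sum
  intro g hg
  exact h d hd S hS s hs N hN Q hQ hQl a g (Nat.dvd_of_mem_divisors hg)

theorem var_all {ε : ℝ} (hε : 0 < ε) : ∃ N₀ : ℕ, 1 ≤ N₀ ∧ ∀ d : ℤ, d % 2 = 1 →
    ∀ S : Set ℤ, InvD d S → ∀ s : ℤ, s = 1 ∨ s = -1 → ∀ N : ℕ, N₀ * d.natAbs ≤ N → ∀ Q : ℕ, 1 ≤ Q →
      ∑ q ∈ Ico Q (2 * Q), ∑ a ∈ range q, (Dl (FS S s) N q (q.gcd d.natAbs) ((a : ℕ) : ℤ)) ^ 2 ≤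
        #d.natAbs.divisors * (ε * N ^ 2 + 288 * Q * d.natAbs * N) := by
  obtain ⟨N₀, h0, h⟩ := var_g hε
  refine ⟨N₀, h0, fun d hd S hS s hs N hN Q hQ => ?_⟩
  have hD1 : 1 ≤ d.natAbs := by
    have : d ≠ 0 := by rintro rfl; norm_num at hd
    have := Int.natAbs_pos.2 this
    omega
  rw [sum_all_gcd hD1 Q (fun q g => ∑ a ∈ range q, (Dl (FS S s) N q g ((a : ℕ) : ℤ)) ^ 2),
    ← nsmul_eq_mul, ← sum_const]
  apply sum_le_sum
  intro g hg
  exact h d hd S hS s hs N hN Q hQ g (Nat.dvd_of_mem_divisors hg)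

theorem Dl_cnt {s : ℤ} (hs : s = 1 ∨ s = -1) (S : Set ℤ) (N q g : ℕ) (a : ℤ) :
    Dl (FS S s) N q g a = (cnt S s N q a : ℝ) - (g : ℝ) / q * cnt S s N g a := by
  rw [cnt_eq hs, cnt_eq hs]
  unfold Dl
  rw [mul_sum, ← sum_sub_distrib]
  apply sum_congr rfl
  intro n _
  ring

end Pool.Agent.Q163.KM
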