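import Pool.Agent.Q163.KM.Lev
import Pool.Agent.Results.MP_7f88e4_nt.ResidueClasses

/-! Small members in almost all residue classes without local obstruction. -/

set_option autoImplicit false

namespace Pool.Agent.Q163.KM

open Finset Filter Topology Pool.Agent.Q37.BV Pool.Agent.Q37.TD Pool.Agent.H499R2.CO

/-- there is no local obstruction modulo `g` -/
def Unob (S : Set ℤ) (s : ℤ) (g : ℕ) (a : ℤ) : Prop :=
  ∃ x ∈ S, 0 < s * x ∧ ¬ (3 : ℤ) ∣ x ∧ ∃ i j : ℕ, a ≡ 2 ^ i * 3 ^ j * (s * x) [ZMOD g]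

/-- missed classes -/
def Miss' (S : Set ℤ) (s k : ℤ) (X Q : ℕ) : Set (ℕ × ℕ) :=
  {p : ℕ × ℕ | Q ≤ p.1 ∧ p.1 < 2 * Q ∧ p.2 < p.1 ∧ Unob S s (p.1.gcd k.natAbs) p.2 ∧
    ∀ x ∈ S, 0 < s * x → s * x ≤ X → ¬ s * x ≡ p.2 [ZMOD p.1]}

theorem cnt_one {k : ℤ} (hk : k % 6 = 1 ∨ k % 6 = 5) {S : Set ℤ} (hS : InvD k S) {s : ℤ} (hs : s = 1 ∨ s = -1)
    (g : ℕ) (hg : g ∣ k.natAbs) (a : ℤ) (ha : Unob S s g a) :
    ∃ l : ℝ, 0 < l ∧ ∃ N₀ : ℕ, ∀ N : ℕ, N₀ ≤ N → l * N ≤ cnt S s N g a := by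
  have hk0 : k ≠ 0 := by rintro rfl; norm_num at hk
  have hkn : 0 < k.natAbs := Int.natAbs_pos.2 hk0
  have hg1 : 1 ≤ g := Nat.pos_of_dvd_of_pos hg hkn
  have hss : s * s = 1 := by rcases hs with rfl | rfl <;> norm_num
  obtain ⟨δ, h1, -, h3⟩ := (Pool.Agent.Results.MP_7f88e4_nt.ResidueClasses.result k hk s hs).1 S (fun x => hS x) g hg1
  obtain ⟨x, hx, hsx, hx3, i, j, hij⟩ := ha
  have hgk : (Int.gcd (g : ℤ) k : ℕ) = g := by
    rw [Int.gcd_eq_natAbs, Int.natAbs_natCast]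
    exact Nat.gcd_eq_left hg
  have hpos : 0 < δ (s * a) := by
    apply h3 (s * a) x hx hsx hx3
    rw [hgk]
    refine ⟨i, j, ?_⟩
    have h4 := hij.mul_left s
    have e : s * (2 ^ i * 3 ^ j * (s * x)) = 2 ^ i * 3 ^ j * x := by
      linear_combination (2 ^ i * 3 ^ j * x) * hss
    rwa [e] at h4
  have h2 := h1 (s * a)
  unfold Pool.Agent.Results.MP_7f88e4_nt.ResidueClasses.HasDensity at h2
  refine ⟨δ (s * a) / 2, by positivity, ?_⟩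
  obtain ⟨N₀, hN⟩ := eventually_atTop.1 ((h2.eventually (lt_mem_nhds (show δ (s * a) / 2 < δ (s * a) by linarith))).and
    (eventually_gt_atTop 0))
  refine ⟨N₀, fun N h => ?_⟩
  obtain ⟨h4, h5⟩ := hN N h
  have hN0 : (0 : ℝ) < N := by exact_mod_cast h5
  rw [lt_div_iff₀ hN0] at h4
  refine h4.le.trans (le_of_eq ?_)
  unfold cnt
  congr 2
  ext n
  simp only [Set.mem_ofPred_eq]
  constructor
  · rintro ⟨g1, g2, g3, g4⟩
    refine ⟨g1, g2, ?_, g3⟩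
    have h5 := g4.mul_left s
    rwa [← mul_assoc, hss, one_mul] at h5
  · rintro ⟨g1, g2, g3, g4⟩
    refine ⟨g1, g2, g4, ?_⟩
    have h5 := g3.mul_left s
    rwa [← mul_assoc, hss, one_mul] at h5

theorem cnt_mod (S : Set ℤ) (s : ℤ) (N g : ℕ) (a : ℤ) : cnt S s N g (a % g) = cnt S s N g a := by
  unfold cnt
  congr 1
  ext x
  simp only [Set.mem_ofPred_eq]
  have h : s * x ≡ a % g [ZMOD g] ↔ s * x ≡ a [ZMOD g] :=
    ⟨fun h => h.trans (Int.mod_modEq _ _), fun h => h.trans (Int.mod_modEq _ _).symm⟩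
  rw [h]

theorem local_lower {k : ℤ} (hk : k % 6 = 1 ∨ k % 6 = 5) {S : Set ℤ} (hS : InvD k S) {s : ℤ}
    (hs : s = 1 ∨ s = -1) : ∃ l : ℝ, 0 < l ∧ ∃ N₀ : ℕ, ∀ g : ℕ, g ∣ k.natAbs → ∀ a : ℤ, Unob S s g a →
      ∀ N : ℕ, N₀ ≤ N → l * N ≤ cnt S s N g a := by
  classical
  have hk0 : k ≠ 0 := by rintro rfl; norm_num at hk
  have hkn : 0 < k.natAbs := Int.natAbs_pos.2 hk0
  have h1 : ∀ p : ℕ × ℕ, ∃ l : ℝ, 0 < l ∧ ∃ N₀ : ℕ, p.1 ∣ k.natAbs → Unob S s p.1 p.2 →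
      ∀ N : ℕ, N₀ ≤ N → l * N ≤ cnt S s N p.1 p.2 := by
    intro p
    by_cases h : p.1 ∣ k.natAbs ∧ Unob S s p.1 p.2
    · obtain ⟨l, hl, N₀, hN⟩ := cnt_one hk hS hs p.1 h.1 p.2 h.2
      exact ⟨l, hl, N₀, fun _ _ => hN⟩
    · exact ⟨1, one_pos, 0, fun g1 g2 => absurd ⟨g1, g2⟩ h⟩
  choose l hl N₀ hN using h1
  set A := k.natAbs.divisors ×ˢ range k.natAbs with hA
  have hne : A.Nonempty := ⟨(1, 0), by
    rw [hA, mem_product, Nat.mem_divisors, mem_range]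
    exact ⟨⟨one_dvd _, hkn.ne'⟩, hkn⟩⟩
  obtain ⟨p₀, hp₀, hmin⟩ := exists_min_image A l hne
  refine ⟨l p₀, hl p₀, A.sup N₀, fun g hg a ha N hNN => ?_⟩
  have hg1 : 1 ≤ g := Nat.pos_of_dvd_of_pos hg hkn
  have hg0 : (0 : ℤ) < g := by exact_mod_cast hg1
  have h2 := Int.emod_nonneg a hg0.ne'
  have h3 := Int.emod_lt_of_pos a hg0
  set b : ℕ := (a % g).toNat with hb
  have hbz : (b : ℤ) = a % g := Int.toNat_of_nonneg h2
  have hbg : b < g := by omega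
  have hgk : g ≤ k.natAbs := Nat.le_of_dvd hkn hg
  have hmem : (g, b) ∈ A := by
    rw [hA, mem_product, Nat.mem_divisors, mem_range]
    exact ⟨⟨hg, hkn.ne'⟩, by simp only; omega⟩
  have hub : Unob S s g (b : ℤ) := by
    obtain ⟨x, hx, g1, g2, i, j, hij⟩ := ha
    exact ⟨x, hx, g1, g2, i, j, by rw [hbz]; exact (Int.mod_modEq _ _).trans hij⟩
  have h4 := hN (g, b) hg hub N ((Finset.le_sup (f := N₀) hmem).trans hNN)
  simp only at h4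
  rw [hbz, cnt_mod] at h4
  exact le_trans (mul_le_mul_of_nonneg_right (hmin _ hmem) (Nat.cast_nonneg _)) h4

theorem miss_all {k : ℤ} (hk : k % 6 = 1 ∨ k % 6 = 5) {S : Set ℤ} (hS : InvD k S) {s : ℤ}
    (hs : s = 1 ∨ s = -1) {ε : ℝ} (hε : 0 < ε) :
    ∃ K : ℕ, ∃ Q₀ : ℕ, ∀ Q : ℕ, Q₀ ≤ Q → ((Miss' S s k (K * Q) Q).ncard : ℝ) ≤ ε * Q ^ 2 := by
  classical
  obtain ⟨l, hl0, N₂, hl⟩ := local_lower hk hS hs
  have hd : k % 2 = 1 := by omega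
  have hk0 : k ≠ 0 := by rintro rfl; norm_num at hk
  set D := k.natAbs with hD
  have hD1 : 1 ≤ D := Int.natAbs_pos.2 hk0
  have hD0 : (0 : ℝ) ≤ D := Nat.cast_nonneg _
  set τ : ℝ := ((#D.divisors : ℕ) : ℝ) with hτ
  have hτ0 : 0 < τ := by
    rw [hτ]
    exact_mod_cast card_pos.2 ⟨1, Nat.mem_divisors.2 ⟨one_dvd _, by omega⟩⟩
  obtain ⟨N₁, -, h1⟩ := var_all (show 0 < ε * l ^ 2 / (16 * τ) by positivity)
  set K : ℕ := ⌈288 * 16 * τ * D / (ε * l ^ 2)⌉₊ + 1 with hK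
  have hK1 : 1 ≤ K := by omega
  have hK0 : (0 : ℝ) < K := by exact_mod_cast hK1
  have hKε : 288 * 16 * τ * D / (ε * l ^ 2) ≤ K := by
    rw [hK]; push_cast
    have := Nat.le_ceil (288 * 16 * τ * D / (ε * l ^ 2))
    linarith
  refine ⟨K, max (max (N₁ * D) N₂) 1, fun Q hQ => ?_⟩
  have hQ1 : N₁ * D ≤ Q := ((le_max_left _ _).trans (le_max_left _ _)).trans hQ
  have hQ2 : N₂ ≤ Q := ((le_max_right _ _).trans (le_max_left _ _)).trans hQ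
  have hQ3 : 1 ≤ Q := (le_max_right _ _).trans hQ
  set N := K * Q with hN
  have hQN : Q ≤ N := Nat.le_mul_of_pos_left Q hK1
  have h3 := h1 k hd S hS s hs N (hQ1.trans hQN) Q hQ3
  have hQ0 : (0 : ℝ) < Q := by exact_mod_cast hQ3
  have hNr : (N : ℝ) = K * Q := by rw [hN]; push_cast; ring
  have hN0 : (0 : ℝ) < N := by rw [hNr]; positivity
  set B := (Ico Q (2 * Q)).sigma
    (fun q => (range q).filter (fun a : ℕ => Unob S s (q.gcd D) a ∧ cnt S s N q ((a : ℕ) : ℤ) = 0)) with hB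
  have e2 : (Miss' S s k (K * Q) Q).ncard ≤ #B := by
    have hsub : Miss' S s k (K * Q) Q ⊆ ((B.image (fun x : Σ _ : ℕ, ℕ => (x.1, x.2)) : Finset (ℕ × ℕ)) : Set (ℕ × ℕ)) := by
      rintro ⟨q, a⟩ ⟨g1, g2, g3, g5, g4⟩
      rw [coe_image]
      refine ⟨⟨q, a⟩, ?_, rfl⟩
      rw [mem_coe, hB, mem_sigma, mem_filter, mem_Ico, mem_range]
      refine ⟨⟨g1, g2⟩, g3, g5, ?_⟩
      unfold cnt
      have : {x : ℤ | 0 < s * x ∧ s * x ≤ N ∧ s * x ≡ (a : ℤ) [ZMOD q] ∧ x ∈ S} = ∅ := by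
        rw [Set.eq_empty_iff_forall_notMem]
        rintro x ⟨k1, k2, k3, k4⟩
        exact g4 x k4 k1 (by rw [hN] at k2; exact k2) k3
      rw [this, Set.ncard_empty]
    exact (Set.ncard_le_ncard hsub (Finset.finite_toSet _)).trans
      (by rw [Set.ncard_coe_finset]; exact card_image_le)
  have h5 : (#B : ℝ) * (l * N / (2 * Q)) ^ 2 ≤ τ * (ε * l ^ 2 / (16 * τ) * N ^ 2 + 288 * Q * D * N) := by
    refine le_trans ?_ h3
    have e3 : (#B : ℝ) * (l * N / (2 * Q)) ^ 2 = ∑ q ∈ Ico Q (2 * Q),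
        ∑ a ∈ range q with Unob S s (q.gcd D) ((a : ℕ) : ℤ) ∧ cnt S s N q ((a : ℕ) : ℤ) = 0,
          (l * N / (2 * Q)) ^ 2 := by
      rw [hB, card_sigma]
      push_cast
      rw [sum_mul]
      apply sum_congr rfl
      intro q _
      rw [sum_const, nsmul_eq_mul]
    rw [e3]
    apply sum_le_sum
    intro q hq
    rw [mem_Ico] at hq
    have hq1 : 1 ≤ q := by omega
    have hq0 : (0 : ℝ) < q := by exact_mod_cast (by omega : 0 < q)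
    have hq2 : (q : ℝ) ≤ 2 * Q := by exact_mod_cast hq.2.le
    have hg : q.gcd D ∣ D := Nat.gcd_dvd_right q D
    have hg1 : (1 : ℝ) ≤ (q.gcd D : ℕ) := by exact_mod_cast Nat.gcd_pos_of_pos_left D hq1
    calc ∑ a ∈ range q with Unob S s (q.gcd D) ((a : ℕ) : ℤ) ∧ cnt S s N q ((a : ℕ) : ℤ) = 0,
          (l * N / (2 * Q)) ^ 2
        ≤ ∑ a ∈ range q with Unob S s (q.gcd D) ((a : ℕ) : ℤ) ∧ cnt S s N q ((a : ℕ) : ℤ) = 0,
            (Dl (FS S s) N q (q.gcd D) ((a : ℕ) : ℤ)) ^ 2 := by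
          apply sum_le_sum
          intro a ha
          rw [mem_filter] at ha
          rw [Dl_cnt hs, ha.2.2, Nat.cast_zero, zero_sub, neg_sq]
          apply pow_le_pow_left₀ (by positivity)
          have h6 := hl (q.gcd D) hg a ha.2.1 N (hQ2.trans hQN)
          have hc0 : (0 : ℝ) ≤ cnt S s N (q.gcd D) ((a : ℕ) : ℤ) := Nat.cast_nonneg _
          calc l * N / (2 * Q) ≤ l * N / q := div_le_div_of_nonneg_left (by positivity) hq0 hq2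
            _ ≤ (cnt S s N (q.gcd D) ((a : ℕ) : ℤ) : ℝ) / q := div_le_div_of_nonneg_right h6 hq0.le
            _ = 1 / q * (cnt S s N (q.gcd D) ((a : ℕ) : ℤ) : ℝ) := by ring
            _ ≤ ((q.gcd D : ℕ) : ℝ) / q * (cnt S s N (q.gcd D) ((a : ℕ) : ℤ) : ℝ) :=
                mul_le_mul_of_nonneg_right (div_le_div_of_nonneg_right hg1 hq0.le) hc0
      _ ≤ ∑ a ∈ range q, (Dl (FS S s) N q (q.gcd D) ((a : ℕ) : ℤ)) ^ 2 :=
          sum_le_sum_of_subset_of_nonneg (filter_subset _ _) fun _ _ _ => sq_nonneg _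
  have e6 : l * (N : ℝ) / (2 * Q) = l / 2 * K := by rw [hNr]; field_simp
  rw [e6] at h5
  have h8 : τ * (288 * (Q : ℝ) * D * N) ≤ ε * l ^ 2 / 16 * N ^ 2 := by
    have h9 : 288 * τ * D ≤ ε * l ^ 2 / 16 * K := by
      rw [div_le_iff₀ (by positivity)] at hKε
      linarith
    rw [hNr]
    have h10 : 288 * τ * D * ((Q : ℝ) * (K * Q)) ≤ (ε * l ^ 2 / 16 * K) * (Q * (K * Q)) :=
      mul_le_mul_of_nonneg_right h9 (by positivity)
    nlinarith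
  have h7 : τ * (ε * l ^ 2 / (16 * τ) * (N : ℝ) ^ 2) = ε * l ^ 2 / 16 * N ^ 2 := by field_simp
  have h9 : (#B : ℝ) * (l / 2 * K) ^ 2 ≤ (ε / 2 * Q ^ 2) * (l / 2 * K) ^ 2 := by
    have e4 : (ε / 2 * (Q : ℝ) ^ 2) * (l / 2 * K) ^ 2 = ε * l ^ 2 / 8 * N ^ 2 := by
      rw [hNr]; ring
    rw [e4]
    rw [mul_add, h7] at h5
    linarith
  have h10 : (#B : ℝ) ≤ ε / 2 * Q ^ 2 := le_of_mul_le_mul_right h9 (by positivity)
  have h11 : ((Miss' S s k (K * Q) Q).ncard : ℝ) ≤ #B := by exact_mod_cast e2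
  have h12 : 0 ≤ ε * (Q : ℝ) ^ 2 := by positivity
  linarith

/-- larger ranges miss fewer classes -/
theorem miss_mono (S : Set ℤ) (s k : ℤ) {X Y Q : ℕ} (h : X ≤ Y) : Miss' S s k Y Q ⊆ Miss' S s k X Q := by
  rintro ⟨q, a⟩ ⟨g1, g2, g3, g4, g5⟩
  exact ⟨g1, g2, g3, g4, fun x hx h1 h2 => g5 x hx h1 (h2.trans (by exact_mod_cast h))⟩

theorem miss_fin (S : Set ℤ) (s k : ℤ) (X Q : ℕ) : (Miss' S s k X Q).Finite := by
  apply Set.Finite.subset (Finset.finite_toSet (range (2 * Q) ×ˢ range (2 * Q)))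
  rintro ⟨q, a⟩ ⟨_, h2, h3, _⟩
  rw [mem_coe, mem_product, mem_range, mem_range]
  simp only at *
  omega

end Pool.Agent.Q163.KM
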