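import Pool.Agent.Q37.TD.Mis

/-! Invariant sets of the `3x+k` maps in the residue classes to all moduli, with local factors at `k`. -/

set_option autoImplicit false

namespace Pool.Agent.Q163.KM

open Finset Filter Topology Pool.Agent.Q37.BV Pool.Agent.Q37.TD Pool.Agent.H499R2.CO

/-- the discrepancy with the local factor at `g` -/
noncomputable def Dl (F : ℤ → ℝ) (N q g : ℕ) (a : ℤ) : ℝ :=
  ∑ n ∈ Ico (1 : ℤ) (1 + N), (ind q a n - (g : ℝ) / q * ind g a n) * F n

theorem ind_class {q' g D' : ℕ} (hg : 1 ≤ g) {w : ℤ} (hw : (q' : ℤ) ∣ D' * w - 1) (a m : ℤ) (c : ℕ) :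
    ind (g * q') a (((g * D' : ℕ) : ℤ) * m - c) =
      if (g : ℤ) ∣ a + c then ind q' (w * ((a + c) / g)) m else 0 := by
  have hg0 : (g : ℤ) ≠ 0 := by exact_mod_cast (by omega : g ≠ 0)
  by_cases h : (g : ℤ) ∣ a + c
  · rw [if_pos h]
    obtain ⟨e, he⟩ := h
    rw [he, Int.mul_ediv_cancel_left _ hg0]
    unfold ind
    have h1 : ((g * q' : ℕ) : ℤ) ∣ ((g * D' : ℕ) : ℤ) * m - c - a ↔ (q' : ℤ) ∣ m - w * e := by
      have e1 : ((g * D' : ℕ) : ℤ) * m - c - a = g * (D' * m - e) := by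
        push_cast; linear_combination -he
      rw [e1]
      push_cast
      rw [mul_dvd_mul_iff_left hg0]
      obtain ⟨k, hk⟩ := hw
      constructor
      · rintro ⟨t, ht⟩
        exact ⟨w * t - k * m, by linear_combination w * ht - m * hk⟩
      · rintro ⟨t, ht⟩
        exact ⟨D' * t + k * e, by linear_combination D' * ht + e * hk⟩
    by_cases h2 : (q' : ℤ) ∣ m - w * e
    · rw [if_pos h2, if_pos (h1.2 h2)]
    · rw [if_neg h2, if_neg (fun h3 => h2 (h1.1 h3))]
  · rw [if_neg h]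
    unfold ind
    rw [if_neg]
    rintro ⟨t, ht⟩
    apply h
    refine ⟨D' * m - q' * t, ?_⟩
    push_cast at ht
    linear_combination -ht

theorem ind_g {g D' : ℕ} (a m : ℤ) (c : ℕ) :
    ind g a (((g * D' : ℕ) : ℤ) * m - c) = if (g : ℤ) ∣ a + c then 1 else 0 := by
  unfold ind
  have h1 : (g : ℤ) ∣ ((g * D' : ℕ) : ℤ) * m - c - a ↔ (g : ℤ) ∣ a + c := by
    constructor
    · rintro ⟨t, ht⟩
      refine ⟨D' * m - t, ?_⟩
      push_cast at ht
      linear_combination -ht
    · rintro ⟨t, ht⟩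
      refine ⟨D' * m - t, ?_⟩
      push_cast
      linear_combination -ht
  by_cases h : (g : ℤ) ∣ a + c
  · rw [if_pos h, if_pos (h1.2 h)]
  · rw [if_neg h, if_neg (fun h3 => h (h1.1 h3))]

theorem Dl_split {g D' q' : ℕ} (hg : 1 ≤ g) (hD' : 1 ≤ D') (hq' : 1 ≤ q') (S : Set ℤ) (s : ℤ) (N : ℕ) {w : ℤ}
    (hw : (q' : ℤ) ∣ D' * w - 1) (a : ℤ) :
    Dl (FS S s) N (g * q') g a = ∑ c ∈ range (g * D') with (g : ℤ) ∣ a + ((c : ℕ) : ℤ),
      dF (FD S s (g * D') c) ((N + c) / (g * D')) q' (w * ((a + ((c : ℕ) : ℤ)) / g)) := by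
  unfold Dl
  have hD : 1 ≤ g * D' := Nat.mul_pos hg hD'
  rw [split_classes hD, sum_filter]
  apply sum_congr rfl
  intro c hc
  rw [mem_range] at hc
  have hg0 : (g : ℝ) ≠ 0 := by exact_mod_cast (by omega : g ≠ 0)
  have hq0 : (q' : ℝ) ≠ 0 := by exact_mod_cast (by omega : q' ≠ 0)
  have hD0 : (0 : ℤ) < ((g * D' : ℕ) : ℤ) := by exact_mod_cast hD
  have h6 : (c : ℤ) < ((g * D' : ℕ) : ℤ) := by exact_mod_cast hc
  by_cases h : (g : ℤ) ∣ a + c
  · rw [if_pos h]
    unfold dF
    apply sum_congr rfl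
    intro m hm
    rw [mem_Ico] at hm
    rw [ind_class hg hw, ind_g, if_pos h, if_pos h]
    have h5 : ((g * D' : ℕ) : ℤ) * 1 ≤ ((g * D' : ℕ) : ℤ) * m := mul_le_mul_of_nonneg_left hm.1 hD0.le
    have e1 : FS S s (((g * D' : ℕ) : ℤ) * m - c) = FD S s (g * D') c m := by
      unfold FS FD
      by_cases h : s * (((g * D' : ℕ) : ℤ) * m - c) ∈ S
      · rw [if_pos ⟨by linarith, h⟩, if_pos ⟨hm.1, h⟩]
      · rw [if_neg (fun h2 => h h2.2), if_neg (fun h2 => h h2.2)]
    rw [e1]
    unfold bal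
    congr 2
    push_cast
    field_simp
  · rw [if_neg h]
    apply sum_eq_zero
    intro m _
    rw [ind_class hg hw, ind_g, if_neg h, if_neg h]
    ring

/-- the class sum over multiples -/
theorem sum_class {g q' : ℕ} (hg : 1 ≤ g) (c : ℕ) (f : ℤ → ℝ) :
    ∑ a ∈ range (g * q') with (g : ℤ) ∣ ((a : ℕ) : ℤ) + c, f ((((a : ℕ) : ℤ) + c) / g) =
      ∑ b ∈ range q', f (((b : ℕ) : ℤ) + ((c + g - 1) / g : ℕ)) := by
  set e := (c + g - 1) / g with he
  have h1 : c ≤ g * e := by
    have := Nat.lt_mul_div_succ (c + g - 1) (show 0 < g by omega)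
    rw [← he] at this
    have h2 : g * (e + 1) = g * e + g := by ring
    omega
  have h2 : g * e ≤ c + g - 1 := Nat.mul_div_le _ _
  have hg0 : (g : ℤ) ≠ 0 := by exact_mod_cast (by omega : g ≠ 0)
  symm
  apply sum_bij (fun b _ => g * (b + e) - c)
  · intro b hb
    rw [mem_range] at hb
    rw [mem_filter, mem_range]
    have h3 : g * (b + e) = g * b + g * e := by ring
    have h4 : g * (b + 1) ≤ g * q' := Nat.mul_le_mul_left g hb
    have h5 : g * (b + 1) = g * b + g := by ring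
    refine ⟨by omega, ?_⟩
    refine ⟨b + e, ?_⟩
    have h6 : c ≤ g * (b + e) := by omega
    push_cast [Nat.cast_sub h6]
    ring
  · intro b _ b' _ hbb
    have h3 : g * (b + e) = g * b + g * e := by ring
    have h4 : g * (b' + e) = g * b' + g * e := by ring
    have : g * b = g * b' := by omega
    exact Nat.eq_of_mul_eq_mul_left (by omega) this
  · intro a ha
    rw [mem_filter, mem_range] at ha
    obtain ⟨ha1, t, ht⟩ := ha
    have ht0 : 0 ≤ t := by
      by_contra hcon
      have : (g : ℤ) * t < 0 := mul_neg_of_pos_of_neg (by omega) (by omega)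
      omega
    obtain ⟨t', rfl⟩ := Int.eq_ofNat_of_zero_le ht0
    have ht' : a + c = g * t' := by exact_mod_cast ht
    have h7 : e ≤ t' := by
      by_contra hcon
      have h8 : g * (t' + 1) ≤ g * e := Nat.mul_le_mul_left g (by omega)
      have h9 : g * (t' + 1) = g * t' + g := by ring
      omega
    have h8 : t' - e < q' := by
      by_contra hcon
      have h9 : g * (q' + e) ≤ g * t' := Nat.mul_le_mul_left g (by omega)
      have h10 : g * (q' + e) = g * q' + g * e := by ring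
      omega
    refine ⟨t' - e, mem_range.2 h8, ?_⟩
    have h9 : t' - e + e = t' := by omega
    rw [h9]
    omega
  · intro b hb
    have h3 : g * (b + e) = g * b + g * e := by ring
    have h6 : c ≤ g * (b + e) := by omega
    congr 1
    have e1 : (((g * (b + e) - c : ℕ)) : ℤ) + c = g * (b + e) := by
      push_cast [Nat.cast_sub h6]
      ring
    rw [e1, Int.mul_ediv_cancel_left _ hg0]

/-- moduli with given greatest common divisor -/
theorem sum_gcd {D g : ℕ} (hg : 1 ≤ g) (Q : ℕ) {f : ℕ → ℝ} (hf : ∀ q, 0 ≤ f q) :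
    ∑ q ∈ Ico Q (2 * Q) with q.gcd D = g, f q ≤
      ∑ q' ∈ Ico ((Q + g - 1) / g) (2 * ((Q + g - 1) / g)) with (g * q').gcd D = g, f (g * q') := by
  set Q' := (Q + g - 1) / g with hQ'
  have h1 : Q ≤ g * Q' := by
    have := Nat.lt_mul_div_succ (Q + g - 1) (show 0 < g by omega)
    rw [← hQ'] at this
    have h2 : g * (Q' + 1) = g * Q' + g := by ring
    omega
  have h2 : g * Q' ≤ Q + g - 1 := Nat.mul_div_le _ _
  rw [← sum_image (f := f) (s := (Ico Q' (2 * Q')).filter (fun q' => (g * q').gcd D = g)) (g := fun q' => g * q')]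
  · apply sum_le_sum_of_subset_of_nonneg
    · intro q hq
      rw [mem_filter, mem_Ico] at hq
      obtain ⟨⟨hq1, hq2⟩, hq3⟩ := hq
      have hgq : g ∣ q := by rw [← hq3]; exact Nat.gcd_dvd_left q D
      obtain ⟨q', rfl⟩ := hgq
      rw [mem_image]
      refine ⟨q', ?_, rfl⟩
      rw [mem_filter, mem_Ico]
      refine ⟨⟨?_, ?_⟩, hq3⟩
      · by_contra hcon
        have h3 : g * (q' + 1) ≤ g * Q' := Nat.mul_le_mul_left g (by omega)
        have h4 : g * (q' + 1) = g * q' + g := by ring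
        omega
      · by_contra hcon
        have h3 : g * (2 * Q') ≤ g * q' := Nat.mul_le_mul_left g (by omega)
        have h4 : g * (2 * Q') = 2 * (g * Q') := by ring
        omega
    · intro _ _ _; exact hf _
  · intro x _ y _ hxy
    exact Nat.eq_of_mul_eq_mul_left (by omega) hxy

end Pool.Agent.Q163.KM
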